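import Pool.Agent.Work.MP_44e654_pr.Stmt
import Pool.Agent.Work.MP_44e654_pr.StepA
import Pool.Agent.Work.MP_44e654_pr.StepB
import Pool.Agent.Work.MP_44e654_pr.StepC
import Pool.Agent.Work.MP_44e654_pr.StepD
import Pool.Agent.Work.MP_44e654_pr.StepD2
import Pool.Agent.Work.MP_44e654_pr.StepE2
import Pool.Agent.Work.MP_44e654_pr.Final

/-! MP_44e654_pr: there is no infinite cluster at criticality on the product of the canopy tree and
the half-line. -/

set_option autoImplicit false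

namespace Pool.Agent.Results.MP_44e654_pr.CriticalPoint

open Pool.Agent.MP44 MeasureTheory

/-- If there is percolation at `p`, then there is percolation at some smaller parameter. -/
theorem open_phase (β : ℕ) (p : unitInterval) (v : (ℕ × ℕ) × ℕ)
    (h : 0 < theta (canopyLine (β + 3)) p v) :
    ∃ p' : unitInterval, p' < p ∧ 0 < theta (canopyLine (β + 3)) p' ((0, 0), 0) := by
  rw [theta_eq] at h
  obtain ⟨c, hc, hA⟩ := stepA β p v h
  obtain ⟨p', hp0, hpp, hB⟩ := stepB β p c hc hA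
  refine ⟨p', hpp, ?_⟩
  rw [theta_eq]
  exact climb_infinite β p' (stepE β p' hp0 (stepD2 β p' (stepD β p' (stepC β p' hp0 hB))))

/-- For every `d ≥ 3`, Bernoulli bond percolation on `C_d × ℕ` at the critical value has almost
surely no infinite open cluster. -/
theorem result : ∀ d : ℕ, 3 ≤ d → ∃ h : pc (canopyLine d) ∈ Set.Icc (0 : ℝ) 1,
    percLaw (canopyLine d) ⟨pc (canopyLine d), h⟩
      {ω | ∃ v, (cluster (canopyLine d) ω v).Infinite} = 0 := by
  intro d hd
  obtain ⟨β, rfl⟩ : ∃ β, d = β + 3 := ⟨d - 3, by omega⟩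
  set G := canopyLine (β + 3) with hG
  set S : Set ℝ := {p : ℝ | ∃ h : p ∈ Set.Icc (0 : ℝ) 1, ∃ v, 0 < theta G ⟨p, h⟩ v} with hS
  have hpc : pc G = sInf S := rfl
  have hSsub : ∀ x ∈ S, x ∈ Set.Icc (0 : ℝ) 1 := fun x hx => hx.1
  have hbdd : BddBelow S := ⟨0, fun x hx => (hSsub x hx).1⟩
  have h01 : pc G ∈ Set.Icc (0 : ℝ) 1 := by
    rw [hpc]
    rcases S.eq_empty_or_nonempty with hE | ⟨x, hx⟩
    · rw [hE, Real.sInf_empty]; exact ⟨le_rfl, zero_le_one⟩
    · exact ⟨le_csInf ⟨x, hx⟩ (fun y hy => (hSsub y hy).1), (csInf_le hbdd hx).trans (hSsub x hx).2⟩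
  refine ⟨h01, ?_⟩
  have hset : {ω : G.edgeSet → Bool | ∃ v, (cluster G ω v).Infinite} =
      ⋃ v, {ω | (cluster G ω v).Infinite} := by
    ext ω; simp
  rw [hset, measure_iUnion_null_iff]
  intro v
  by_contra hne
  have hpos : 0 < theta G ⟨pc G, h01⟩ v := pos_iff_ne_zero.2 hne
  obtain ⟨p', hp', hth⟩ := open_phase β ⟨pc G, h01⟩ v hpos
  have hmem : (p' : ℝ) ∈ S := ⟨p'.2, _, hth⟩
  have h1 : pc G ≤ (p' : ℝ) := csInf_le hbdd hmem
  have h2 : (p' : ℝ) < pc G := hp'
  exact absurd h2 (not_lt.2 h1)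

end Pool.Agent.Results.MP_44e654_pr.CriticalPoint
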